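import Pool.Agent.H60.HED.Defs

/-!
# HED, module HYP: sparse (exact) hypergraphs with large chromatic number

Nesetril-Roedl amalgamation, following `/team-store/HED_HYP.md` (helper60).
-/

set_option autoImplicit false

namespace Pool.Agent.H60.HED

open Classical in
/-- exactness of all families of at most `k` edges -/
def hyp_X (k : ℕ) {W S I : Type} (e : I → W → S) : Prop :=
  ∀ F : Finset I, F.card ≤ k → ∀ d : I → W → ℝ,
    ∃ (α : S → ℝ) (γ : I → ℝ), ∀ i ∈ F, ∀ w, α (e i w) = γ i + d i w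

/-- the case `k = 1` -/
theorem hyp_base (n : ℕ) (W : Type) [Fintype W] :
    ∃ (A J : Type) (_ : Fintype A) (_ : Fintype J) (e : J → W → A),
      (∀ j, Function.Injective (e j)) ∧
      (∀ c : A → Fin n, ∃ (j : J) (a : Fin n), ∀ w, c (e j w) = a) := by
  classical
  refine ⟨Fin (n * Fintype.card W + 1), W ↪ Fin (n * Fintype.card W + 1), inferInstance,
    inferInstance, fun j => j, fun j => j.injective, fun c => ?_⟩
  obtain ⟨a, ha⟩ := Fintype.exists_lt_card_fiber_of_mul_lt_card (f := c) (n := Fintype.card W)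
    (by simp)
  have h1 : Fintype.card W ≤ Fintype.card {x // c x = a} := by
    rw [Fintype.card_subtype]
    exact ha.le
  obtain ⟨f⟩ := Function.Embedding.nonempty_of_card_le h1
  exact ⟨f.trans (Function.Embedding.subtype _), a, fun w => (f w).2⟩

theorem hyp_X_one {W S I : Type} (e : I → W → S) (he : ∀ i, Function.Injective (e i)) :
    hyp_X 1 e := by
  intro F hF d
  rcases F.eq_empty_or_nonempty with rfl | ⟨i, hi⟩
  · exact ⟨fun _ => 0, fun _ => 0, fun i hi => absurd hi (Finset.notMem_empty i)⟩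
  · refine ⟨Function.extend (e i) (d i) 0, fun _ => 0, fun j hj w => ?_⟩
    have hji : j = i := Finset.card_le_one.1 hF j hj i hi
    subst hji
    rw [(he j).extend_apply, zero_add]

/-- partite systems -/
def hyp_P (k n : ℕ) {W A J : Type} (eA : J → W → A) (D : Finset A) : Prop :=
  ∃ (X I : Type) (_ : Fintype X) (_ : Fintype I) (e : I → W → X) (pi : X → A) (tau : I → J),
    (∀ i w, pi (e i w) = eA (tau i) w) ∧
    (∀ c : X → Fin n, ∃ (col : A → Fin n) (ed : J → I), (∀ j, tau (ed j) = j) ∧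
      ∀ j w, eA j w ∈ D → c (e (ed j) w) = col (eA j w)) ∧
    hyp_X (k + 1) e

theorem hyp_P_empty (k n : ℕ) (hn : 0 < n) {W A J : Type} [Fintype W] [Fintype J]
    (eA : J → W → A) : hyp_P k n eA ∅ := by
  refine ⟨J × W, J, inferInstance, inferInstance, fun j w => (j, w), fun q => eA q.1 q.2, id,
    fun _ _ => rfl, fun c => ⟨fun _ => ⟨0, hn⟩, id, fun _ => rfl, fun j w h => ?_⟩, ?_⟩
  · exact absurd h (Finset.notMem_empty _)
  · intro F _ d
    exact ⟨fun q => d q.1 q.2, fun _ => 0, fun i _ w => by simp⟩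

open Classical in
theorem hyp_P_insert (k n : ℕ)
    (IH : ∀ (W : Type) [Fintype W], ∃ (S I : Type) (_ : Fintype S) (_ : Fintype I) (e : I → W → S),
      (∀ c : S → Fin n, ∃ (i : I) (a : Fin n), ∀ w, c (e i w) = a) ∧ hyp_X k e)
    {W A J : Type} [Fintype W] (eA : J → W → A) (hA : ∀ j, Function.Injective (eA j))
    (D : Finset A) (p : A) (h : hyp_P k n eA D) : hyp_P k n eA (insert p D) := by
  obtain ⟨X, I, fX, fI, e, pi, tau, hc, hQ, hX⟩ := h
  obtain ⟨S', I', fS', fI', e', hR', hX'⟩ := IH {x : X // pi x = p}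
  refine ⟨S' ⊕ (I' × {x : X // pi x ≠ p}), I' × I, inferInstance, inferInstance,
    fun q w => if h : pi (e q.2 w) = p then Sum.inl (e' q.1 ⟨e q.2 w, h⟩)
      else Sum.inr (q.1, ⟨e q.2 w, h⟩),
    fun y => Sum.elim (fun _ => p) (fun q => pi q.2.1) y, fun q => tau q.2, ?_, ?_, ?_⟩
  · rintro ⟨i', i⟩ w
    by_cases h : pi (e i w) = p
    · simp only [h, dif_pos, Sum.elim_inl]
      rw [← hc, h]
    · simp only [h, dif_neg, not_false_eq_true, Sum.elim_inr]
      rw [← hc]
  · intro c
    obtain ⟨i', b, hb⟩ := hR' fun s => c (Sum.inl s)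
    obtain ⟨col, ed, h1, h2⟩ := hQ fun x => if h : pi x = p then c (Sum.inl (e' i' ⟨x, h⟩))
      else c (Sum.inr (i', ⟨x, h⟩))
    refine ⟨Function.update col p b, fun j => (i', ed j), h1, fun j w hw => ?_⟩
    have h3 : pi (e (ed j) w) = eA j w := by rw [hc, h1]
    by_cases hp : eA j w = p
    · have h4 : pi (e (ed j) w) = p := h3.trans hp
      simp only [h4, dif_pos]
      rw [hb, hp, Function.update_self]
    · have h4 : ¬ pi (e (ed j) w) = p := fun h => hp (h3.symm.trans h)
      have h5 := h2 j w ((Finset.mem_insert.1 hw).resolve_left hp)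
      simp only [h4, dif_neg, not_false_eq_true] at h5 ⊢
      rw [h5, Function.update_of_ne hp]
  · intro F hF d
    have hold : ∀ i' : I', ∃ (α : X → ℝ) (γ : I → ℝ), ∀ i, (i', i) ∈ F → ∀ w,
        α (e i w) = γ i + d (i', i) w := by
      intro i'
      obtain ⟨α, γ, hαγ⟩ := hX ((F.filter fun q => q.1 = i').image Prod.snd)
        ((Finset.card_image_le.trans (Finset.card_filter_le _ _)).trans hF) fun i w => d (i', i) w
      refine ⟨α, γ, fun i hi w => hαγ i ?_ w⟩
      rw [Finset.mem_image]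
      exact ⟨(i', i), Finset.mem_filter.2 ⟨hi, rfl⟩, rfl⟩
    choose al ga hag using hold
    by_cases hM : (F.image Prod.fst).card ≤ k
    · obtain ⟨α', γ', h'⟩ := hX' (F.image Prod.fst) hM fun i' x => al i' x.1
      refine ⟨Sum.elim α' fun q => al q.1 q.2.1 + γ' q.1, fun q => ga q.1 q.2 + γ' q.1, ?_⟩
      rintro ⟨i', i⟩ hi w
      have h1 := hag i' i hi w
      by_cases h : pi (e i w) = p
      · have h2 := h' i' (Finset.mem_image.2 ⟨(i', i), hi, rfl⟩) ⟨e i w, h⟩
        simp only [h, dif_pos, Sum.elim_inl]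
        rw [h2, h1]
        ring
      · simp only [h, dif_neg, not_false_eq_true, Sum.elim_inr]
        rw [h1]
        ring
    · have hinj : Set.InjOn Prod.fst (F : Set (I' × I)) := by
        apply Finset.card_image_iff.1
        have := Finset.card_image_le (s := F) (f := Prod.fst)
        omega
      have hdel : ∀ i' : I', ∃ δ : ℝ, ∀ i, (i', i) ∈ F → ∀ w, pi (e i w) = p →
          δ = - al i' (e i w) := by
        intro i'
        by_cases hex : ∃ i, (i', i) ∈ F ∧ ∃ w, pi (e i w) = p
        · obtain ⟨i, hi, w, hw⟩ := hex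
          refine ⟨- al i' (e i w), fun j hj w' hw' => ?_⟩
          have hij : (i', i) = (i', j) := hinj (Finset.mem_coe.2 hi) (Finset.mem_coe.2 hj) rfl
          have hij' : i = j := congrArg Prod.snd hij
          subst hij'
          have hww : w = w' := hA (tau i) (by rw [← hc, ← hc, hw, hw'])
          rw [hww]
        · exact ⟨0, fun i hi w hw => absurd ⟨i, hi, w, hw⟩ hex⟩
      choose δ hδ using hdel
      refine ⟨Sum.elim (fun _ => 0) fun q => al q.1 q.2.1 + δ q.1,
        fun q => ga q.1 q.2 + δ q.1, ?_⟩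
      rintro ⟨i', i⟩ hi w
      have h1 := hag i' i hi w
      by_cases h : pi (e i w) = p
      · have h2 := hδ i' i hi w h
        simp only [h, dif_pos, Sum.elim_inl]
        rw [h2, h1]
        ring
      · simp only [h, dif_neg, not_false_eq_true, Sum.elim_inr]
        rw [h1]
        ring

theorem hyp_main (k : ℕ) : ∀ (n : ℕ), 0 < n → ∀ (W : Type) [Fintype W],
    ∃ (S I : Type) (_ : Fintype S) (_ : Fintype I) (e : I → W → S),
      (∀ c : S → Fin n, ∃ (i : I) (a : Fin n), ∀ w, c (e i w) = a) ∧ hyp_X (k + 1) e := by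
  classical
  induction k with
  | zero =>
    intro n hn W _
    obtain ⟨A, J, fA, fJ, e, h1, h2⟩ := hyp_base n W
    exact ⟨A, J, fA, fJ, e, h2, hyp_X_one e h1⟩
  | succ k ih =>
    intro n hn W _
    obtain ⟨A, J, fA, fJ, eA, hA, hR⟩ := hyp_base n W
    have hall : ∀ D : Finset A, hyp_P (k + 1) n eA D := by
      intro D
      induction D using Finset.induction_on with
      | empty => exact hyp_P_empty (k + 1) n hn eA
      | insert p D _ hD => exact hyp_P_insert (k + 1) n (fun W _ => ih n hn W) eA hA D p hD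
    obtain ⟨X, I, fX, fI, e, pi, tau, hc, hQ, hX⟩ := hall Finset.univ
    refine ⟨X, I, fX, fI, e, fun c => ?_, hX⟩
    obtain ⟨col, ed, h1, h2⟩ := hQ c
    obtain ⟨j, a, hja⟩ := hR col
    exact ⟨ed j, a, fun w => (h2 j w (Finset.mem_univ _)).trans (hja w)⟩

theorem hyp : S_HYP := by
  intro k n W _ hn
  obtain ⟨S, I, fS, fI, e, h1, h2⟩ := hyp_main k n hn W
  exact ⟨S, I, fS, fI, e, h1, fun F hF d => h2 F (hF.trans (Nat.le_succ k)) d⟩

end Pool.Agent.H60.HED
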